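import Pool.Agent.SimN.L1
import Pool.Agent.C1G.Pc

set_option autoImplicit false

open scoped BigOperators

namespace Pool.Agent.SimN

/-- The body `{y : ∑ k, |⟨u k, y - z⟩| ≤ 1}`. -/
def l1Body {d m : ℕ} (u : Fin m → EuclideanSpace ℝ (Fin d)) (z : EuclideanSpace ℝ (Fin d)) :
    Set (EuclideanSpace ℝ (Fin d)) :=
  {y | ∑ k, |inner ℝ (u k) (y - z)| ≤ 1}

variable {d m : ℕ} (u : Fin m → EuclideanSpace ℝ (Fin d)) (z : EuclideanSpace ℝ (Fin d))

theorem l1_scale {c : ℝ} (hc : 0 < c) (v : EuclideanSpace ℝ (Fin d)) :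
    ∑ k, |inner ℝ (u k) (c • v)| = c * ∑ k, |inner ℝ (u k) v| := by
  rw [Finset.mul_sum]
  refine Finset.sum_congr rfl fun k _ => ?_
  rw [inner_smul_right, abs_mul, abs_of_pos hc]

theorem l1_mem {x w : EuclideanSpace ℝ (Fin d)} {c : ℝ} (hc : 0 < c)
    (hw : w ∈ (fun y => x + c • y) '' l1Body u z) :
    ∑ k, |inner ℝ (u k) (w - (x + c • z))| ≤ c := by
  obtain ⟨y, hy, rfl⟩ := hw
  have h1 : x + c • y - (x + c • z) = c • (y - z) := by
    rw [smul_sub]; abel
  simp only [h1]
  rw [l1_scale u hc]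
  calc c * ∑ k, |inner ℝ (u k) (y - z)| ≤ c * 1 := mul_le_mul_of_nonneg_left hy hc.le
    _ = c := mul_one c

theorem l1_int {x w : EuclideanSpace ℝ (Fin d)} {c : ℝ} (hc : 0 < c)
    (hw : ∑ k, |inner ℝ (u k) (w - (x + c • z))| < c) :
    w ∈ interior ((fun y => x + c • y) '' l1Body u z) := by
  rw [mem_interior]
  refine ⟨{w | ∑ k, |inner ℝ (u k) (w - (x + c • z))| < c}, ?_, ?_, hw⟩
  · intro v hv
    refine ⟨c⁻¹ • (v - x), ?_, ?_⟩
    · have h1 : c⁻¹ • (v - x) - z = c⁻¹ • (v - (x + c • z)) := by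
        rw [← sub_sub, smul_sub c⁻¹ (v - x), smul_smul, inv_mul_cancel₀ hc.ne', one_smul]
      show ∑ k, |inner ℝ (u k) (c⁻¹ • (v - x) - z)| ≤ 1
      simp only [h1]
      rw [l1_scale u (inv_pos.2 hc)]
      have h2 : ∑ k, |inner ℝ (u k) (v - (x + c • z))| < c := hv
      rw [inv_mul_le_iff₀ hc, mul_one]
      exact h2.le
    · show x + c • c⁻¹ • (v - x) = v
      rw [smul_smul, mul_inv_cancel₀ hc.ne', one_smul]
      abel
  · refine isOpen_lt ?_ continuous_const
    refine continuous_finsetSum _ fun k _ => ?_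
    exact (continuous_const.inner (continuous_id.sub continuous_const)).abs

/-- Meeting homothets. -/
theorem l1_meet {x x' : EuclideanSpace ℝ (Fin d)} {c c' : ℝ} (hc : 0 < c) (hc' : 0 < c')
    (h : ((fun y => x + c • y) '' l1Body u z ∩ (fun y => x' + c' • y) '' l1Body u z).Nonempty) :
    ∑ k, |inner ℝ (u k) (x + c • z) - inner ℝ (u k) (x' + c' • z)| ≤ c + c' := by
  obtain ⟨w, h1, h2⟩ := h
  refine le_trans (Finset.sum_le_sum fun k _ => ?_) (le_trans (le_of_eq Finset.sum_add_distrib)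
    (add_le_add (l1_mem u z hc h1) (l1_mem u z hc' h2)))
  rw [← inner_sub_right]
  have e : x + c • z - (x' + c' • z) = (w - (x' + c' • z)) - (w - (x + c • z)) := by abel
  rw [e, inner_sub_right]
  have h3 : ∀ A B : ℝ, |A - B| ≤ |B| + |A| := fun A B =>
    abs_le.2 ⟨by linarith [neg_abs_le A, le_abs_self B], by linarith [le_abs_self A, neg_abs_le B]⟩
  exact h3 _ _

/-- Homothets with disjoint interiors. -/
theorem l1_disj {x x' : EuclideanSpace ℝ (Fin d)} {c c' : ℝ} (hc : 0 < c) (hc' : 0 < c')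
    (h : interior ((fun y => x + c • y) '' l1Body u z) ∩
      interior ((fun y => x' + c' • y) '' l1Body u z) = ∅) :
    c + c' ≤ ∑ k, |inner ℝ (u k) (x + c • z) - inner ℝ (u k) (x' + c' • z)| := by
  by_contra hcon
  push Not at hcon
  set p := x + c • z with hp
  set q := x' + c' • z with hq
  simp only [← inner_sub_right] at hcon
  have hs : 0 < c + c' := by linarith
  set w := p + (c / (c + c')) • (q - p) with hw
  have e1 : w - p = (c / (c + c')) • (q - p) := by rw [hw]; abel
  have e2 : w - q = (c' / (c + c')) • (p - q) := by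
    have h3 : c' / (c + c') = 1 - c / (c + c') := by field_simp; ring
    rw [hw, h3, sub_smul, one_smul, smul_sub, smul_sub]
    abel
  have hsym : ∑ k, |inner ℝ (u k) (q - p)| = ∑ k, |inner ℝ (u k) (p - q)| := by
    refine Finset.sum_congr rfl fun k _ => ?_
    rw [← neg_sub p q, inner_neg_right, abs_neg]
  have h1 : ∑ k, |inner ℝ (u k) (w - p)| < c := by
    rw [e1, l1_scale u (by positivity), hsym, div_mul_eq_mul_div, div_lt_iff₀ hs]
    exact mul_lt_mul_of_pos_left hcon hc
  have h2 : ∑ k, |inner ℝ (u k) (w - q)| < c' := by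
    rw [e2, l1_scale u (by positivity), div_mul_eq_mul_div, div_lt_iff₀ hs]
    exact mul_lt_mul_of_pos_left hcon hc'
  exact Set.eq_empty_iff_forall_notMem.1 h w ⟨l1_int u z hc h1, l1_int u z hc' h2⟩

end Pool.Agent.SimN

namespace Pool.Agent.SimN

/-- `{y : ∑ |⟨u k, y - z⟩| ≤ 1}` with `m + 1` vectors: `2 ^ m + 2` colours. -/
theorem colB_l1 {d m : ℕ} (u : Fin (m + 1) → EuclideanSpace ℝ (Fin d))
    (z : EuclideanSpace ℝ (Fin d)) : C1G.ColB (l1Body u z) (2 ^ m + 2) := by
  intro n c x hc hm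
  obtain ⟨col, hcol⟩ := L1.colour (fun i k => inner ℝ (u k) (x i + c i • z)) c (m := m) (by simp) hc
    fun i j hij => l1_meet u z (hc i) (hc j) (hm i j hij)
  exact ⟨col, fun i j hij hd => hcol i j hij (le_antisymm (l1_meet u z (hc i) (hc j) (hm i j hij))
    (l1_disj u z (hc i) (hc j) hd))⟩

/-- With a relation between the vectors which has no zero coefficient, `2 ^ m` colours. -/
theorem colB_l1_rel {d m : ℕ} (u : Fin (m + 1) → EuclideanSpace ℝ (Fin d))
    (z : EuclideanSpace ℝ (Fin d)) (lam : Fin (m + 1) → ℝ) (hlam : ∀ k, lam k ≠ 0)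
    (hrel : ∑ k, lam k • u k = 0) : C1G.ColB (l1Body u z) (2 ^ m) := by
  classical
  intro n c x hc hm
  set a : Fin n → Fin (m + 1) → ℝ := fun i k => inner ℝ (u k) (x i + c i • z) with ha
  have hF : L1.Fam a c Finset.univ := ⟨fun i _ => hc i, fun i _ j _ hij =>
    l1_meet u z (hc i) (hc j) (hm i j hij)⟩
  have hT : ∀ i j, ¬ L1.Sp a c (Finset.univ.filter fun k => 0 < lam k) i j := by
    intro i j hs
    have h0 : ∀ k, 0 ≤ lam k * (a i k - a j k) := by
      intro k
      rcases lt_or_gt_of_ne (hlam k) with h | h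
      · have h1 : k ∉ Finset.univ.filter fun k => 0 < lam k := fun h2 =>
          absurd (Finset.mem_filter.1 h2).2 (not_lt.2 h.le)
        have h2 := hF.mi (Finset.mem_univ i) (Finset.mem_univ j) hs h1
        exact mul_nonneg_of_nonpos_of_nonpos h.le (by linarith)
      · have h1 : k ∈ Finset.univ.filter fun k => 0 < lam k :=
          Finset.mem_filter.2 ⟨Finset.mem_univ k, h⟩
        have h2 := hF.pl (Finset.mem_univ i) (Finset.mem_univ j) hs h1
        exact mul_nonneg h.le (by linarith)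
    have hsum : ∑ k, lam k * (a i k - a j k) = 0 := by
      have h1 : ∀ k, lam k * (a i k - a j k) =
          inner ℝ (lam k • u k) (x i + c i • z - (x j + c j • z)) := by
        intro k
        rw [real_inner_smul_left, inner_sub_right]
      rw [Finset.sum_congr rfl fun k _ => h1 k, ← sum_inner, hrel, inner_zero_left]
    have h3 := (Finset.sum_eq_zero_iff_of_nonneg fun k _ => h0 k).1 hsum
    have h4 : ∀ k, a i k = a j k := by
      intro k
      rcases mul_eq_zero.1 (h3 k (Finset.mem_univ k)) with h | h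
      · exact absurd h (hlam k)
      · linarith
    unfold L1.Sp L1.Dd at hs
    simp only [h4, sub_self, ite_self, Finset.sum_const_zero] at hs
    linarith [hc i, hc j]
  obtain ⟨col, hcol⟩ := L1.colour_of_not a c (m := m) (by simp) hc
    (fun i j hij => l1_meet u z (hc i) (hc j) (hm i j hij)) _ hT
  exact ⟨col, fun i j hij hd => hcol i j hij (le_antisymm (l1_meet u z (hc i) (hc j) (hm i j hij))
    (l1_disj u z (hc i) (hc j) hd))⟩

end Pool.Agent.SimN
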