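import Pool.Agent.SimN.Geo
import Pool.Agent.SpC.Core

set_option autoImplicit false

open scoped BigOperators

namespace Pool.Agent.SimN

open Pool.Agent.StB (E)

/-- A finite family of pairwise intersecting positive homothets of a simplex in `ℝ^d` has a
colouring with `2 ^ d` colours in which members with disjoint interiors have different colours. -/
theorem simplex_col {d : ℕ} (p : Fin (d + 1) → E d) (hp : AffineIndependent ℝ p) {ι : Type}
    [Finite ι] (c : ι → ℝ) (hc : ∀ i, 0 < c i) (x : ι → E d)
    (hm : ∀ i j, i ≠ j → ((fun y => x i + c i • y) '' (convexHull ℝ (Set.range p)) ∩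
      (fun y => x j + c j • y) '' (convexHull ℝ (Set.range p))).Nonempty) :
    ∃ col : ι → Fin (2 ^ d), ∀ i j, i ≠ j →
      interior ((fun y => x i + c i • y) '' (convexHull ℝ (Set.range p))) ∩
        interior ((fun y => x j + c j • y) '' (convexHull ℝ (Set.range p))) = ∅ →
          col i ≠ col j := by
  obtain ⟨h, h1, h2, h3⟩ := simplex_rows p hp c hc x
  obtain ⟨col, hcol⟩ := SpC.colour h (d := d) (by simp) (fun i => by rw [h1 i]; exact hc i)
    (fun i j hij => h2 i j (hm i j hij))
  exact ⟨col, fun i j hij hd => hcol i j hij (le_antisymm (h3 i j hd) (h2 i j (hm i j hij)))⟩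

end Pool.Agent.SimN
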