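import Pool.Agent.StB.MainB

set_option autoImplicit false

open scoped BigOperators

namespace Pool.Agent.SimN

open Pool.Agent.StB (E simplex_coords)

private theorem geo_int {d : ℕ} {K : Set (E d)} (z : E d) {r : ℝ} (hr : 0 < r) {u : E d}
    (hu : r⁻¹ • (u - z) ∈ interior K) : u ∈ interior ((fun y => z + r • y) '' K) := by
  have h3 : IsOpenMap (fun y : E d => z + r • y) :=
    (isOpenMap_add_left z).comp (isOpenMap_smul₀ hr.ne')
  refine h3.image_interior_subset K ⟨_, hu, ?_⟩
  simp [smul_smul, hr.ne']

/-- The positive homothets of a simplex in barycentric coordinates. -/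
theorem simplex_rows {d : ℕ} (p : Fin (d + 1) → E d) (hp : AffineIndependent ℝ p) {ι : Type}
    (c : ι → ℝ) (hc : ∀ i, 0 < c i) (x : ι → E d) :
    ∃ h : ι → Fin (d + 1) → ℝ, (∀ i, ∑ k, h i k = c i) ∧
      (∀ i j, ((fun y => x i + c i • y) '' (convexHull ℝ (Set.range p)) ∩
        (fun y => x j + c j • y) '' (convexHull ℝ (Set.range p))).Nonempty →
          0 ≤ ∑ k, min (h i k) (h j k)) ∧
      ∀ i j, interior ((fun y => x i + c i • y) '' (convexHull ℝ (Set.range p))) ∩
        interior ((fun y => x j + c j • y) '' (convexHull ℝ (Set.range p))) = ∅ →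
          ∑ k, min (h i k) (h j k) ≤ 0 := by
  obtain ⟨l, b, hl, hb, hK, hI, hsur⟩ := simplex_coords p hp
  have hsum : ∀ i, ∑ k, -(l k (x i) + c i * b k) = c i := by
    intro i
    rw [Finset.sum_neg_distrib, Finset.sum_add_distrib, hl, ← Finset.mul_sum, hb]
    ring
  refine ⟨fun i k => -(l k (x i) + c i * b k), hsum, ?_, ?_⟩
  · intro i j hij
    have hmax : ∀ i, ∀ P ∈ (fun y => x i + c i • y) '' (convexHull ℝ (Set.range p)), ∀ k,
        - l k P ≤ -(l k (x i) + c i * b k) := by
      rintro i P ⟨u, hu, rfl⟩ k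
      rw [hK] at hu
      simp only [map_add, map_smul, smul_eq_mul]
      have := mul_le_mul_of_nonneg_left (hu k) (hc i).le
      linarith
    obtain ⟨P, hPi, hPj⟩ := hij
    have h0 : ∑ k, - l k P = 0 := by rw [Finset.sum_neg_distrib, hl P, neg_zero]
    rw [← h0]
    exact Finset.sum_le_sum fun k _ => le_min (hmax i P hPi k) (hmax j P hPj k)
  · intro i j hij
    by_contra hneg
    push Not at hneg
    set σ := ∑ k, min (-(l k (x i) + c i * b k)) (-(l k (x j) + c j * b k)) with hσ
    have hd : (0 : ℝ) < ((d + 1 : ℕ) : ℝ) := by positivity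
    obtain ⟨z, hz⟩ := hsur (fun k => -(min (-(l k (x i) + c i * b k)) (-(l k (x j) + c j * b k))) +
      σ / ((d + 1 : ℕ) : ℝ)) (by
        rw [Finset.sum_add_distrib, Finset.sum_const, Finset.card_univ, Fintype.card_fin,
          nsmul_eq_mul, mul_div_cancel₀ _ hd.ne', Finset.sum_neg_distrib, ← hσ]
        ring)
    have hgt : 0 < σ / ((d + 1 : ℕ) : ℝ) := by positivity
    have hint : ∀ i', (∀ k, l k (x i') + c i' * b k < l k z) →
        z ∈ interior ((fun y => x i' + c i' • y) '' (convexHull ℝ (Set.range p))) := by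
      intro i' hi'
      have hci := hc i'
      refine geo_int (x i') hci ?_
      rw [hI]
      intro k
      rw [map_smul, map_sub, smul_eq_mul, lt_inv_mul_iff₀ hci]
      have := hi' k
      linarith
    have h1 : z ∈ interior ((fun y => x i + c i • y) '' (convexHull ℝ (Set.range p))) := by
      refine hint i fun k => ?_
      rw [hz k]
      have := min_le_left (-(l k (x i) + c i * b k)) (-(l k (x j) + c j * b k))
      linarith
    have h2 : z ∈ interior ((fun y => x j + c j • y) '' (convexHull ℝ (Set.range p))) := by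
      refine hint j fun k => ?_
      rw [hz k]
      have := min_le_right (-(l k (x i) + c i * b k)) (-(l k (x j) + c j * b k))
      linarith
    exact (Set.eq_empty_iff_forall_notMem.1 hij) z ⟨h1, h2⟩

end Pool.Agent.SimN
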