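import Mathlib

/-!
# Colourings for stars in `ℓ¹`

Points `a i` of `ℝ^κ` with radii `c i > 0` and `|a i - a j|₁ ≤ c i + c j` for `i ≠ j`; the pairs with
equality get different colours.  A set `T` of coordinates splits `(i, j)` if
`∑_T (a i - a j) + ∑_(Tᶜ) (a j - a i) = c i + c j`.
-/

set_option autoImplicit false

open scoped BigOperators

namespace Pool.Agent.SimN.L1

open Finset

variable {ι κ : Type} [Fintype κ] [DecidableEq κ]

/-- The signed distance. -/
def Dd (a : ι → κ → ℝ) (T : Finset κ) (i j : ι) : ℝ :=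
  ∑ k, if k ∈ T then a i k - a j k else a j k - a i k

/-- `T` splits `(i, j)`. -/
def Sp (a : ι → κ → ℝ) (c : ι → ℝ) (T : Finset κ) (i j : ι) : Prop := Dd a T i j = c i + c j

/-- The balls with centres `a i` and radii `c i`, `i ∈ I`, meet pairwise. -/
structure Fam (a : ι → κ → ℝ) (c : ι → ℝ) (I : Finset ι) : Prop where
  pos : ∀ i ∈ I, 0 < c i
  meet : ∀ i ∈ I, ∀ j ∈ I, i ≠ j → ∑ k, |a i k - a j k| ≤ c i + c j

theorem Fam.mono {a : ι → κ → ℝ} {c : ι → ℝ} {I J : Finset ι} (hI : Fam a c I) (hJ : J ⊆ I) :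
    Fam a c J :=
  ⟨fun i hi => hI.pos i (hJ hi), fun i hi j hj => hI.meet i (hJ hi) j (hJ hj)⟩

theorem term_le (a : ι → κ → ℝ) (T : Finset κ) (i j : ι) (k : κ) :
    (if k ∈ T then a i k - a j k else a j k - a i k) ≤ |a i k - a j k| := by
  by_cases hk : k ∈ T
  · simp only [hk, if_true]; exact le_abs_self _
  · simp only [hk, if_false]; rw [abs_sub_comm]; exact le_abs_self _

theorem Dd_le (a : ι → κ → ℝ) (T : Finset κ) (i j : ι) : Dd a T i j ≤ ∑ k, |a i k - a j k| :=
  Finset.sum_le_sum fun k _ => term_le a T i j k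

theorem Dd_self (a : ι → κ → ℝ) (T : Finset κ) (i : ι) : Dd a T i i = 0 := by
  unfold Dd
  refine Finset.sum_eq_zero fun k _ => ?_
  by_cases hk : k ∈ T <;> simp [hk]

theorem Dd_swap (a : ι → κ → ℝ) (T : Finset κ) (i j i' j' : ι) :
    Dd a T i j + Dd a T i' j' = Dd a T i j' + Dd a T i' j := by
  unfold Dd
  rw [← Finset.sum_add_distrib, ← Finset.sum_add_distrib]
  refine Finset.sum_congr rfl fun k _ => ?_
  by_cases hk : k ∈ T
  · simp only [hk, if_true]; ring
  · simp only [hk, if_false]; ring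

theorem Fam.le {a : ι → κ → ℝ} {c : ι → ℝ} {I : Finset ι} (hI : Fam a c I) (T : Finset κ) {i j : ι}
    (hi : i ∈ I) (hj : j ∈ I) : Dd a T i j ≤ c i + c j := by
  rcases eq_or_ne i j with rfl | hij
  · rw [Dd_self]
    have := hI.pos i hi
    linarith
  · exact (Dd_le a T i j).trans (hI.meet i hi j hj hij)

theorem Fam.ne {a : ι → κ → ℝ} {c : ι → ℝ} {I : Finset ι} (hI : Fam a c I) {T : Finset κ} {i j : ι}
    (hi : i ∈ I) (hs : Sp a c T i j) : i ≠ j := by
  rintro rfl
  unfold Sp at hs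
  rw [Dd_self] at hs
  have := hI.pos i hi
  linarith

theorem Fam.exch {a : ι → κ → ℝ} {c : ι → ℝ} {I : Finset ι} (hI : Fam a c I) {T : Finset κ}
    {i j i' j' : ι} (hi : i ∈ I) (hj : j ∈ I) (hi' : i' ∈ I) (hj' : j' ∈ I) (h1 : Sp a c T i j)
    (h2 : Sp a c T i' j') : Sp a c T i j' := by
  have h3 := hI.le T hi hj'
  have h4 := hI.le T hi' hj
  have h5 := Dd_swap a T i j i' j'
  unfold Sp at h1 h2 ⊢
  linarith

theorem Fam.term {a : ι → κ → ℝ} {c : ι → ℝ} {I : Finset ι} (hI : Fam a c I) {T : Finset κ}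
    {i j : ι} (hi : i ∈ I) (hj : j ∈ I) (hs : Sp a c T i j) (k : κ) :
    (if k ∈ T then a i k - a j k else a j k - a i k) = |a i k - a j k| := by
  have h1 := hI.meet i hi j hj (hI.ne hi hs)
  have h2 := Dd_le a T i j
  have h3 : ∑ k, (if k ∈ T then a i k - a j k else a j k - a i k) = ∑ k, |a i k - a j k| := by
    unfold Sp at hs
    have h4 : Dd a T i j = ∑ k, |a i k - a j k| := by linarith
    exact h4
  exact (Finset.sum_eq_sum_iff_of_le fun k _ => term_le a T i j k).1 h3 k (Finset.mem_univ k)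

theorem Fam.pl {a : ι → κ → ℝ} {c : ι → ℝ} {I : Finset ι} (hI : Fam a c I) {T : Finset κ}
    {i j : ι} (hi : i ∈ I) (hj : j ∈ I) (hs : Sp a c T i j) {k : κ} (hk : k ∈ T) :
    a j k ≤ a i k := by
  have h1 := hI.term hi hj hs k
  simp only [hk, if_true] at h1
  have := abs_nonneg (a i k - a j k)
  linarith

theorem Fam.mi {a : ι → κ → ℝ} {c : ι → ℝ} {I : Finset ι} (hI : Fam a c I) {T : Finset κ}
    {i j : ι} (hi : i ∈ I) (hj : j ∈ I) (hs : Sp a c T i j) {k : κ} (hk : k ∉ T) :
    a i k ≤ a j k := by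
  have h1 := hI.term hi hj hs k
  simp only [hk, if_false] at h1
  have := abs_nonneg (a i k - a j k)
  linarith

theorem Sp.compl {a : ι → κ → ℝ} {c : ι → ℝ} {T : Finset κ} {i j : ι} (hs : Sp a c T i j) :
    Sp a c Tᶜ j i := by
  unfold Sp Dd at hs ⊢
  rw [add_comm (c j), ← hs]
  refine Finset.sum_congr rfl fun k _ => ?_
  by_cases hk : k ∈ T
  · simp [hk]
  · simp [hk]

theorem Sp.tie {a : ι → κ → ℝ} {c : ι → ℝ} {T : Finset κ} {i j : ι} (hs : Sp a c T i j) {k : κ}
    (he : a i k = a j k) : Sp a c (T.erase k) i j := by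
  unfold Sp Dd at hs ⊢
  rw [← hs]
  refine Finset.sum_congr rfl fun l _ => ?_
  by_cases hl : l = k
  · subst hl
    simp [he]
  · simp [hl]

theorem sp_of_edge {a : ι → κ → ℝ} {c : ι → ℝ} {i j : ι} (h : ∑ k, |a i k - a j k| = c i + c j) :
    ∃ T, Sp a c T i j := by
  classical
  refine ⟨Finset.univ.filter fun k => a j k ≤ a i k, ?_⟩
  unfold Sp Dd
  rw [← h]
  refine Finset.sum_congr rfl fun k _ => ?_
  by_cases hk : a j k ≤ a i k
  · simp only [Finset.mem_filter, Finset.mem_univ, true_and, hk, if_true]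
    rw [abs_of_nonneg]
    linarith
  · simp only [Finset.mem_filter, Finset.mem_univ, true_and, hk, if_false]
    rw [abs_of_nonpos]
    · ring
    · linarith

open Classical in
/-- The splitting sets of the family. -/
noncomputable def spl (a : ι → κ → ℝ) (c : ι → ℝ) (I : Finset ι) : Finset (Finset κ) :=
  Finset.univ.filter fun T => ∃ i ∈ I, ∃ j ∈ I, Sp a c T i j

theorem mem_spl {a : ι → κ → ℝ} {c : ι → ℝ} {I : Finset ι} {T : Finset κ} :
    T ∈ spl a c I ↔ ∃ i ∈ I, ∃ j ∈ I, Sp a c T i j := by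
  classical
  unfold spl
  rw [Finset.mem_filter]
  exact ⟨fun hh => hh.2, fun hh => ⟨Finset.mem_univ _, hh⟩⟩

theorem spl_mono {a : ι → κ → ℝ} {c : ι → ℝ} {I J : Finset ι} (hJ : J ⊆ I) :
    spl a c J ⊆ spl a c I := fun T hT => by
  obtain ⟨i, hi, j, hj, hs⟩ := mem_spl.1 hT
  exact mem_spl.2 ⟨i, hJ hi, j, hJ hj, hs⟩

theorem spl_compl {a : ι → κ → ℝ} {c : ι → ℝ} {I : Finset ι} {T : Finset κ} (hT : T ∈ spl a c I) :
    Tᶜ ∈ spl a c I := by
  obtain ⟨i, hi, j, hj, hs⟩ := mem_spl.1 hT
  exact mem_spl.2 ⟨j, hj, i, hi, hs.compl⟩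

/-- THE THRESHOLD LEMMA. -/
theorem Fam.threshold {a : ι → κ → ℝ} {c : ι → ℝ} {I : Finset ι} (hI : Fam a c I)
    {I1 I2 : Finset ι} (h1 : I1 ⊆ I) (h2 : I2 ⊆ I) {k : κ}
    (ht : ∀ i ∈ I1, ∀ i' ∈ I2, a i k < a i' k) : Disjoint (spl a c I1) (spl a c I2) := by
  rw [Finset.disjoint_left]
  intro T hT1 hT2
  obtain ⟨i, hi, j, hj, hs⟩ := mem_spl.1 hT1
  obtain ⟨i', hi', j', hj', hs'⟩ := mem_spl.1 hT2
  have e1 := hI.exch (h1 hi) (h1 hj) (h2 hi') (h2 hj') hs hs'
  have e2 := hI.exch (h2 hi') (h2 hj') (h1 hi) (h1 hj) hs' hs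
  by_cases hk : k ∈ T
  · exact absurd (hI.pl (h1 hi) (h2 hj') e1 hk) (not_le.2 (ht i hi j' hj'))
  · exact absurd (hI.mi (h2 hi') (h1 hj) e2 hk) (not_le.2 (ht j hj i' hi'))

/-- A nonempty family of sets closed under complements and not everything is not closed under
erasing an element. -/
theorem exists_erase {S : Finset (Finset κ)} (hne : S.Nonempty) (hc : ∀ T ∈ S, Tᶜ ∈ S)
    (hS : S ≠ Finset.univ) : ∃ T ∈ S, ∃ k ∈ T, T.erase k ∉ S := by
  by_contra hcon
  push Not at hcon
  have hd : ∀ T ∈ S, ∀ R : Finset κ, T \ R ∈ S := by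
    intro T hT R
    induction R using Finset.induction_on with
    | empty => simpa using hT
    | insert k R _ ih =>
      rw [Finset.sdiff_insert]
      by_cases hk : k ∈ T \ R
      · exact hcon _ ih k hk
      · rwa [Finset.erase_eq_of_notMem hk]
  obtain ⟨T, hT⟩ := hne
  have h0 : (∅ : Finset κ) ∈ S := by simpa using hd T hT T
  have h1 : (Finset.univ : Finset κ) ∈ S := by simpa using hc _ h0
  apply hS
  rw [Finset.eq_univ_iff_forall]
  intro U
  have h2 := hd _ h1 Uᶜ
  have h3 : (Finset.univ : Finset κ) \ Uᶜ = U := by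
    ext k
    simp
  rwa [h3] at h2

/-- Joining two palettes. -/
theorem join {a : ι → κ → ℝ} {c : ι → ℝ} {I I1 I2 : Finset ι} (hu : ∀ i ∈ I, i ∈ I1 ∨ i ∈ I2)
    {n1 n2 : ℕ} {col1 col2 : ι → ℕ} (hlt1 : ∀ i ∈ I1, col1 i < n1) (hlt2 : ∀ i ∈ I2, col2 i < n2)
    (hc1 : ∀ i ∈ I1, ∀ j ∈ I1, i ≠ j → ∑ k, |a i k - a j k| = c i + c j → col1 i ≠ col1 j)
    (hc2 : ∀ i ∈ I2, ∀ j ∈ I2, i ≠ j → ∑ k, |a i k - a j k| = c i + c j → col2 i ≠ col2 j) :
    ∃ col : ι → ℕ, (∀ i ∈ I, col i < n1 + n2) ∧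
      ∀ i ∈ I, ∀ j ∈ I, i ≠ j → ∑ k, |a i k - a j k| = c i + c j → col i ≠ col j := by
  classical
  refine ⟨fun i => if i ∈ I1 then col1 i else n1 + col2 i, fun i hi => ?_,
    fun i hi j hj hij hm => ?_⟩
  · by_cases h : i ∈ I1
    · simp only [if_pos h]
      have := hlt1 i h
      omega
    · simp only [if_neg h]
      have := hlt2 i ((hu i hi).resolve_left h)
      omega
  · by_cases h : i ∈ I1 <;> by_cases h' : j ∈ I1
    · simp only [if_pos h, if_pos h']
      exact hc1 i h j h' hij hm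
    · simp only [if_pos h, if_neg h']
      have := hlt1 i h
      omega
    · simp only [if_neg h, if_pos h']
      have := hlt1 j h'
      omega
    · simp only [if_neg h, if_neg h']
      have := hc2 i ((hu i hi).resolve_left h) j ((hu j hj).resolve_left h') hij hm
      omega

theorem colour_aux (a : ι → κ → ℝ) (c : ι → ℝ) (N : ℕ) : ∀ I : Finset ι, I.card ≤ N → Fam a c I →
    spl a c I ≠ Finset.univ →
    ∃ (n : ℕ) (col : ι → ℕ), 2 * n ≤ 2 + (spl a c I).card ∧ (∀ i ∈ I, col i < n) ∧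
      ∀ i ∈ I, ∀ j ∈ I, i ≠ j → ∑ k, |a i k - a j k| = c i + c j → col i ≠ col j := by
  classical
  induction N with
  | zero =>
    intro I hN _ _
    have hI0 : I = ∅ := Finset.card_eq_zero.1 (by omega)
    subst hI0
    exact ⟨0, fun _ => 0, by omega, fun i hi => absurd hi (Finset.notMem_empty i),
      fun i hi => absurd hi (Finset.notMem_empty i)⟩
  | succ N ih =>
    intro I hN hI hS
    rcases (spl a c I).eq_empty_or_nonempty with he | hne
    · refine ⟨1, fun _ => 0, by omega, fun _ _ => Nat.zero_lt_one, fun i hi j hj hij hm => ?_⟩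
      exfalso
      obtain ⟨T, hT⟩ := sp_of_edge hm
      have h1 : T ∈ spl a c I := mem_spl.2 ⟨i, hi, j, hj, hT⟩
      rw [he] at h1
      exact absurd h1 (Finset.notMem_empty _)
    · obtain ⟨T, hT, k, hk, hTk⟩ := exists_erase hne (fun T hT => spl_compl hT) hS
      have hB : (I.filter fun j => ∃ i ∈ I, Sp a c T i j).Nonempty := by
        obtain ⟨i, hi, j, hj, hs⟩ := mem_spl.1 hT
        exact ⟨j, Finset.mem_filter.2 ⟨hj, i, hi, hs⟩⟩
      obtain ⟨j0, hj0, hmax⟩ := Finset.exists_max_image _ (fun j => a j k) hB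
      obtain ⟨hj0I, i0, hi0, hs0⟩ := Finset.mem_filter.1 hj0
      have key : ∀ i ∈ I, ∀ j ∈ I, Sp a c T i j → a j k ≤ a j0 k ∧ a j0 k < a i k := by
        intro i hi j hj hs
        refine ⟨hmax j (Finset.mem_filter.2 ⟨hj, i, hi, hs⟩), ?_⟩
        have e1 := hI.exch hi hj hi0 hj0I hs hs0
        refine lt_of_le_of_ne (hI.pl hi hj0I e1 hk) fun heq => ?_
        exact hTk (mem_spl.2 ⟨i, hi, j0, hj0I, e1.tie heq.symm⟩)
      have hsub1 : (I.filter fun i => a i k ≤ a j0 k) ⊆ I := Finset.filter_subset _ _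
      have hsub2 : (I.filter fun i => a j0 k < a i k) ⊆ I := Finset.filter_subset _ _
      have hT1 : T ∉ spl a c (I.filter fun i => a i k ≤ a j0 k) := fun hh => by
        obtain ⟨i, hi, j, hj, hs⟩ := mem_spl.1 hh
        exact absurd (key i (hsub1 hi) j (hsub1 hj) hs).2 (not_lt.2 (Finset.mem_filter.1 hi).2)
      have hT2 : T ∉ spl a c (I.filter fun i => a j0 k < a i k) := fun hh => by
        obtain ⟨i, hi, j, hj, hs⟩ := mem_spl.1 hh
        exact absurd (key i (hsub2 hi) j (hsub2 hj) hs).1 (not_le.2 (Finset.mem_filter.1 hj).2)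
      have hTc1 : Tᶜ ∉ spl a c (I.filter fun i => a i k ≤ a j0 k) := fun hh => hT1 (by
        have := spl_compl hh
        rwa [compl_compl] at this)
      have hTc2 : Tᶜ ∉ spl a c (I.filter fun i => a j0 k < a i k) := fun hh => hT2 (by
        have := spl_compl hh
        rwa [compl_compl] at this)
      have hdis := hI.threshold hsub1 hsub2 (k := k) fun i hi i' hi' =>
        lt_of_le_of_lt (Finset.mem_filter.1 hi).2 (Finset.mem_filter.1 hi').2
      have hcard : (spl a c (I.filter fun i => a i k ≤ a j0 k)).card +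
          (spl a c (I.filter fun i => a j0 k < a i k)).card + 2 ≤ (spl a c I).card := by
        have h1 : insert T (insert Tᶜ (spl a c (I.filter fun i => a i k ≤ a j0 k) ∪
            spl a c (I.filter fun i => a j0 k < a i k))) ⊆ spl a c I := by
          intro U hU
          rcases Finset.mem_insert.1 hU with rfl | hU
          · exact hT
          · rcases Finset.mem_insert.1 hU with rfl | hU
            · exact spl_compl hT
            · rcases Finset.mem_union.1 hU with hU | hU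
              · exact spl_mono hsub1 hU
              · exact spl_mono hsub2 hU
        have h2 := Finset.card_le_card h1
        rw [Finset.card_insert_of_notMem, Finset.card_insert_of_notMem,
          Finset.card_union_of_disjoint hdis] at h2
        · exact h2
        · intro hh
          rcases Finset.mem_union.1 hh with hh | hh
          · exact hTc1 hh
          · exact hTc2 hh
        · intro hh
          rcases Finset.mem_insert.1 hh with hh | hh
          · have h3 : k ∈ Tᶜ := hh ▸ hk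
            exact (Finset.mem_compl.1 h3) hk
          · rcases Finset.mem_union.1 hh with hh | hh
            · exact hT1 hh
            · exact hT2 hh
      have hc1 : (I.filter fun i => a i k ≤ a j0 k).card < I.card := by
        refine Finset.card_lt_card (Finset.ssubset_iff_subset_ne.2 ⟨hsub1, fun heq => ?_⟩)
        have h3 := (key i0 hi0 j0 hj0I hs0).2
        have h4 : i0 ∈ I.filter fun i => a i k ≤ a j0 k := by rw [heq]; exact hi0
        exact absurd h3 (not_lt.2 (Finset.mem_filter.1 h4).2)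
      have hc2 : (I.filter fun i => a j0 k < a i k).card < I.card := by
        refine Finset.card_lt_card (Finset.ssubset_iff_subset_ne.2 ⟨hsub2, fun heq => ?_⟩)
        have h4 : j0 ∈ I.filter fun i => a j0 k < a i k := by rw [heq]; exact hj0I
        exact absurd (Finset.mem_filter.1 h4).2 (lt_irrefl _)
      obtain ⟨n1, col1, hn1, hlt1, hcol1⟩ := ih _ (by omega) (hI.mono hsub1) fun h =>
        hT1 (h ▸ Finset.mem_univ T)
      obtain ⟨n2, col2, hn2, hlt2, hcol2⟩ := ih _ (by omega) (hI.mono hsub2) fun h =>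
        hT2 (h ▸ Finset.mem_univ T)
      obtain ⟨col, hlt, hcol⟩ := join (I := I) (fun i hi => (le_or_gt (a i k) (a j0 k)).imp
        (fun h => Finset.mem_filter.2 ⟨hi, h⟩) fun h => Finset.mem_filter.2 ⟨hi, h⟩)
        hlt1 hlt2 hcol1 hcol2
      exact ⟨n1 + n2, col, by omega, hlt, hcol⟩

theorem two_mul_le {m : ℕ} (hm : 1 ≤ m) : 4 * m ≤ 4 + 2 ^ m := by
  induction m, hm using Nat.le_induction with
  | base => norm_num
  | succ m hm ih =>
    rw [pow_succ]
    rcases Nat.lt_or_ge m 2 with h | h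
    · obtain rfl : m = 1 := by omega
      norm_num
    · have : 2 ^ 2 ≤ 2 ^ m := Nat.pow_le_pow_right (by norm_num) h
      omega

/-- The general bound. -/
theorem colour_fin [Nonempty κ] (a : ι → κ → ℝ) (c : ι → ℝ) (I : Finset ι) (hI : Fam a c I) :
    ∃ (n : ℕ) (col : ι → ℕ), 2 * n ≤ 4 + 2 ^ Fintype.card κ ∧ (∀ i ∈ I, col i < n) ∧
      ∀ i ∈ I, ∀ j ∈ I, i ≠ j → ∑ k, |a i k - a j k| = c i + c j → col i ≠ col j := by
  classical
  have hall : (Finset.univ : Finset (Finset κ)).card = 2 ^ Fintype.card κ := by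
    rw [Finset.card_univ, Fintype.card_finset]
  by_cases hS : spl a c I = Finset.univ
  swap
  · obtain ⟨n, col, hn, h1, h2⟩ := colour_aux a c I.card I le_rfl hI hS
    have h3 := Finset.card_le_univ (spl a c I)
    rw [Fintype.card_finset] at h3
    exact ⟨n, col, by omega, h1, h2⟩
  by_cases hcut : ∃ (k : κ) (I1 I2 : Finset ι), I1 ⊆ I ∧ I2 ⊆ I ∧ (∀ i ∈ I, i ∈ I1 ∨ i ∈ I2) ∧
      (∀ i ∈ I1, ∀ i' ∈ I2, a i k < a i' k) ∧ spl a c I1 ≠ Finset.univ ∧ spl a c I2 ≠ Finset.univ
  · obtain ⟨k, I1, I2, h1, h2, hu, ht, hS1, hS2⟩ := hcut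
    obtain ⟨n1, col1, hn1, hlt1, hcol1⟩ := colour_aux a c I1.card I1 le_rfl (hI.mono h1) hS1
    obtain ⟨n2, col2, hn2, hlt2, hcol2⟩ := colour_aux a c I2.card I2 le_rfl (hI.mono h2) hS2
    obtain ⟨col, hlt, hcol⟩ := join hu hlt1 hlt2 hcol1 hcol2
    have hdis := hI.threshold h1 h2 ht
    have h3 := Finset.card_le_univ (spl a c I1 ∪ spl a c I2)
    rw [Finset.card_union_of_disjoint hdis, Fintype.card_finset] at h3
    exact ⟨n1 + n2, col, by omega, hlt, hcol⟩
  push Not at hcut
  have hne : (Finset.univ : Finset (Finset κ)).Nonempty := ⟨∅, Finset.mem_univ _⟩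
  have hdisj : ∀ (J1 J2 : Finset ι), Disjoint (spl a c J1) (spl a c J2) →
      spl a c J1 = Finset.univ → spl a c J2 = ∅ := by
    intro J1 J2 hd h
    rw [h, Finset.disjoint_left] at hd
    exact Finset.eq_empty_iff_forall_notMem.2 fun T hT => hd (Finset.mem_univ T) hT
  have ht : ∀ k : κ, ∃ t : ℝ, spl a c (I.filter fun i => a i k < t) = ∅ ∧
      spl a c (I.filter fun i => t < a i k) = ∅ := by
    intro k
    have hIne : I.Nonempty := by
      rw [Finset.nonempty_iff_ne_empty]
      rintro rfl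
      rw [← hS] at hne
      obtain ⟨T, hT⟩ := hne
      obtain ⟨i, hi, _⟩ := mem_spl.1 hT
      exact absurd hi (Finset.notMem_empty i)
    obtain ⟨i1, hi1, hmax⟩ := Finset.exists_max_image I (fun j => a j k) hIne
    have hP : (I.filter fun i => spl a c (I.filter fun j => a j k ≤ a i k) =
        Finset.univ).Nonempty := by
      refine ⟨i1, Finset.mem_filter.2 ⟨hi1, ?_⟩⟩
      rw [Finset.filter_true_of_mem fun j hj => hmax j hj]
      exact hS
    obtain ⟨i0, hi0, hmin⟩ := Finset.exists_min_image _ (fun j => a j k) hP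
    obtain ⟨hi0I, hi0S⟩ := Finset.mem_filter.1 hi0
    refine ⟨a i0 k, ?_, ?_⟩
    · have h1 := hcut k (I.filter fun i => a i k < a i0 k) (I.filter fun i => a i0 k ≤ a i k)
        (Finset.filter_subset _ _) (Finset.filter_subset _ _)
        (fun i hi => (lt_or_ge (a i k) (a i0 k)).imp (fun h => Finset.mem_filter.2 ⟨hi, h⟩)
          fun h => Finset.mem_filter.2 ⟨hi, h⟩)
        (fun i hi i' hi' => lt_of_lt_of_le (Finset.mem_filter.1 hi).2 (Finset.mem_filter.1 hi').2)
      have hd := hI.threshold (Finset.filter_subset (fun i => a i k < a i0 k) I)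
        (Finset.filter_subset (fun i => a i0 k ≤ a i k) I) (k := k)
        (fun i hi i' hi' => lt_of_lt_of_le (Finset.mem_filter.1 hi).2 (Finset.mem_filter.1 hi').2)
      by_cases hL : spl a c (I.filter fun i => a i k < a i0 k) = Finset.univ
      · exfalso
        have hLne : (I.filter fun i => a i k < a i0 k).Nonempty := by
          rw [Finset.nonempty_iff_ne_empty]
          intro h0
          rw [h0] at hL
          rw [← hL] at hne
          obtain ⟨T, hT⟩ := hne
          obtain ⟨i, hi, _⟩ := mem_spl.1 hT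
          exact absurd hi (Finset.notMem_empty i)
        obtain ⟨i2, hi2, hmax2⟩ := Finset.exists_max_image _ (fun j => a j k) hLne
        obtain ⟨hi2I, hi2lt⟩ := Finset.mem_filter.1 hi2
        have h3 : (I.filter fun j => a j k ≤ a i2 k) = I.filter fun i => a i k < a i0 k := by
          ext j
          simp only [Finset.mem_filter]
          constructor
          · rintro ⟨h4, h5⟩
            exact ⟨h4, lt_of_le_of_lt h5 hi2lt⟩
          · rintro ⟨h4, h5⟩
            exact ⟨h4, hmax2 j (Finset.mem_filter.2 ⟨h4, h5⟩)⟩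
        have h6 := hmin i2 (Finset.mem_filter.2 ⟨hi2I, by rw [h3]; exact hL⟩)
        exact absurd hi2lt (not_lt.2 h6)
      · exact hdisj _ _ hd.symm (h1 hL)
    · exact hdisj _ _ (hI.threshold (Finset.filter_subset (fun i => a i k ≤ a i0 k) I)
        (Finset.filter_subset (fun i => a i0 k < a i k) I) (k := k)
        (fun i hi i' hi' => lt_of_le_of_lt (Finset.mem_filter.1 hi).2
          (Finset.mem_filter.1 hi').2)) hi0S
  choose t htL htU using ht
  -- an edge is separated by `t` in every coordinate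
  have hedge : ∀ i ∈ I, ∀ j ∈ I, ∑ k, |a i k - a j k| = c i + c j → ∀ k,
      ¬ (a i k < t k ∧ a j k < t k) ∧ ¬ (t k < a i k ∧ t k < a j k) := by
    intro i hi j hj hm k
    obtain ⟨T, hT⟩ := sp_of_edge hm
    refine ⟨fun h => ?_, fun h => ?_⟩
    · have h1 : T ∈ spl a c (I.filter fun i => a i k < t k) :=
        mem_spl.2 ⟨i, Finset.mem_filter.2 ⟨hi, h.1⟩, j, Finset.mem_filter.2 ⟨hj, h.2⟩, hT⟩
      rw [htL k] at h1
      exact absurd h1 (Finset.notMem_empty _)
    · have h1 : T ∈ spl a c (I.filter fun i => t k < a i k) :=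
        mem_spl.2 ⟨i, Finset.mem_filter.2 ⟨hi, h.1⟩, j, Finset.mem_filter.2 ⟨hj, h.2⟩, hT⟩
      rw [htU k] at h1
      exact absurd h1 (Finset.notMem_empty _)
  set A : ι → ℝ := fun i => ∑ k, |a i k - t k| with hA
  have hsum : ∀ i ∈ I, ∀ j ∈ I, ∑ k, |a i k - a j k| = c i + c j → c i + c j = A i + A j := by
    intro i hi j hj hm
    rw [← hm, hA]
    simp only
    rw [← Finset.sum_add_distrib]
    refine Finset.sum_congr rfl fun k _ => ?_
    obtain ⟨h1, h2⟩ := hedge i hi j hj hm k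
    rcases lt_trichotomy (a i k) (t k) with h3 | h3 | h3
    · have h4 : t k ≤ a j k := not_lt.1 fun h => h1 ⟨h3, h⟩
      rw [abs_of_nonpos (by linarith), abs_of_nonpos (by linarith), abs_of_nonneg (by linarith)]
      ring
    · rw [h3, sub_self, abs_zero, zero_add, abs_sub_comm]
    · have h4 : a j k ≤ t k := not_lt.1 fun h => h2 ⟨h3, h⟩
      rw [abs_of_nonneg (by linarith), abs_of_nonneg (by linarith), abs_of_nonpos (by linarith)]
      ring
  -- the colours
  have hk0 := Classical.arbitrary κ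
  have hex : ∀ i ∈ I, A i = c i → ∃ k, a i k ≠ t k := by
    intro i hi h
    by_contra hcon
    push Not at hcon
    have : A i = 0 := by
      rw [hA]
      exact Finset.sum_eq_zero fun k _ => by rw [hcon k, sub_self, abs_zero]
    have h2 := hI.pos i hi
    linarith
  have hcolor : ∀ i, ∃ p : κ × Bool, i ∈ I → (A i < c i → p = (hk0, true)) ∧
      (c i < A i → p = (hk0, false)) ∧
      (A i = c i → (p.2 = true → t p.1 < a i p.1) ∧ (p.2 = false → a i p.1 < t p.1)) := by
    intro i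
    by_cases hi : i ∈ I
    swap
    · exact ⟨(hk0, true), fun h => absurd h hi⟩
    rcases lt_trichotomy (A i) (c i) with h | h | h
    · exact ⟨(hk0, true), fun _ => ⟨fun _ => rfl, fun h' => absurd h (not_lt.2 h'.le),
        fun h' => absurd h' h.ne⟩⟩
    · obtain ⟨k, hk⟩ := hex i hi h
      rcases lt_or_gt_of_ne hk with h1 | h1
      · exact ⟨(k, false), fun _ => ⟨fun h' => absurd h h'.ne, fun h' => absurd h h'.ne',
          fun _ => ⟨fun h' => absurd h' (by simp), fun _ => h1⟩⟩⟩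
      · exact ⟨(k, true), fun _ => ⟨fun h' => absurd h h'.ne, fun h' => absurd h h'.ne',
          fun _ => ⟨fun _ => h1, fun h' => absurd h' (by simp)⟩⟩⟩
    · exact ⟨(hk0, false), fun _ => ⟨fun h' => absurd h (not_lt.2 h'.le), fun _ => rfl,
        fun h' => absurd h' h.ne'⟩⟩
  choose p hp using hcolor
  have hcardp : Fintype.card (κ × Bool) = 2 * Fintype.card κ := by
    rw [Fintype.card_prod, Fintype.card_bool, mul_comm]
  refine ⟨2 * Fintype.card κ, fun i => (Fintype.equivFinOfCardEq hcardp (p i) : ℕ), ?_,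
    fun i _ => (Fintype.equivFinOfCardEq hcardp (p i)).isLt, ?_⟩
  · have := two_mul_le (m := Fintype.card κ) Fintype.card_pos
    omega
  · intro i hi j hj hij hm heq
    have hpe : p i = p j := (Fintype.equivFinOfCardEq hcardp).injective (Fin.ext heq)
    have hs := hsum i hi j hj hm
    obtain ⟨hi1, hi2, hi3⟩ := hp i hi
    obtain ⟨hj1, hj2, hj3⟩ := hp j hj
    rcases lt_trichotomy (A i) (c i) with h | h | h
    · have h1 : c j < A j := by linarith
      have h2 := hi1 h
      have h3 := hj2 h1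
      rw [hpe, h3] at h2
      exact absurd (congrArg Prod.snd h2) (by simp)
    · have h1 : A j = c j := by linarith
      obtain ⟨h2, h3⟩ := hi3 h
      obtain ⟨h4, h5⟩ := hj3 h1
      obtain ⟨h6, h7⟩ := hedge i hi j hj hm (p i).1
      rcases Bool.eq_false_or_eq_true (p i).2 with hb | hb
      · have h8 := h4 (by rw [← hpe]; exact hb)
        rw [← hpe] at h8
        exact h7 ⟨h2 hb, h8⟩
      · have h8 := h5 (by rw [← hpe]; exact hb)
        rw [← hpe] at h8
        exact h6 ⟨h3 hb, h8⟩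
    · have h1 : A j < c j := by linarith
      have h2 := hi2 h
      have h3 := hj1 h1
      rw [hpe, h3] at h2
      exact absurd (congrArg Prod.snd h2) (by simp)

/-- Pairwise meeting balls of `ℓ¹` on `m ≥ 1` coordinates: `2 ^ (m - 1) + 2` colours. -/
theorem colour [Finite ι] (a : ι → κ → ℝ) (c : ι → ℝ) {m : ℕ} (hm : Fintype.card κ = m + 1)
    (hc : ∀ i, 0 < c i) (hs : ∀ i j, i ≠ j → ∑ k, |a i k - a j k| ≤ c i + c j) :
    ∃ col : ι → Fin (2 ^ m + 2), ∀ i j, i ≠ j → ∑ k, |a i k - a j k| = c i + c j →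
      col i ≠ col j := by
  classical
  have : Fintype ι := Fintype.ofFinite ι
  have hne : Nonempty κ := Fintype.card_pos_iff.1 (by omega)
  obtain ⟨n, col, hn, hlt, hcol⟩ := colour_fin a c Finset.univ
    ⟨fun i _ => hc i, fun i _ j _ hij => hs i j hij⟩
  have hn2 : n ≤ 2 ^ m + 2 := by
    rw [hm, pow_succ] at hn
    omega
  exact ⟨fun i => ⟨col i, lt_of_lt_of_le (hlt i (Finset.mem_univ i)) hn2⟩, fun i j hij h heq =>
    hcol i (Finset.mem_univ i) j (Finset.mem_univ j) hij h (congrArg Fin.val heq)⟩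

/-- If some set of coordinates splits no pair, `2 ^ (m - 1)` colours are enough. -/
theorem colour_of_not [Finite ι] (a : ι → κ → ℝ) (c : ι → ℝ) {m : ℕ}
    (hm : Fintype.card κ = m + 1) (hc : ∀ i, 0 < c i)
    (hs : ∀ i j, i ≠ j → ∑ k, |a i k - a j k| ≤ c i + c j) (T : Finset κ)
    (hT : ∀ i j, ¬ Sp a c T i j) :
    ∃ col : ι → Fin (2 ^ m), ∀ i j, i ≠ j → ∑ k, |a i k - a j k| = c i + c j →
      col i ≠ col j := by
  classical
  have : Fintype ι := Fintype.ofFinite ι
  have hne : Nonempty κ := Fintype.card_pos_iff.1 (by omega)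
  have hT0 : T ∉ spl a c Finset.univ := fun h => by
    obtain ⟨i, _, j, _, h1⟩ := mem_spl.1 h
    exact hT i j h1
  have hT1 : Tᶜ ∉ spl a c Finset.univ := fun h => hT0 (by
    have := spl_compl h
    rwa [compl_compl] at this)
  obtain ⟨n, col, hn, hlt, hcol⟩ := colour_aux a c _ Finset.univ le_rfl
    ⟨fun i _ => hc i, fun i _ j _ hij => hs i j hij⟩ fun h => hT0 (h ▸ Finset.mem_univ T)
  have hne2 : T ≠ Tᶜ := by
    intro h
    obtain ⟨k⟩ := hne
    by_cases hk : k ∈ T
    · have h1 := hk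
      rw [h] at h1
      exact (Finset.mem_compl.1 h1) hk
    · exact hk (h ▸ Finset.mem_compl.2 hk)
  have hS : (spl a c Finset.univ).card + 2 ≤ 2 ^ (m + 1) := by
    have h1 := Finset.card_le_univ (insert T (insert Tᶜ (spl a c Finset.univ)))
    rw [Finset.card_insert_of_notMem, Finset.card_insert_of_notMem hT1, Fintype.card_finset,
      hm] at h1
    · exact h1
    · intro hh
      rcases Finset.mem_insert.1 hh with hh | hh
      · exact hne2 hh
      · exact hT0 hh
  have hn2 : n ≤ 2 ^ m := by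
    rw [pow_succ] at hS
    omega
  exact ⟨fun i => ⟨col i, lt_of_lt_of_le (hlt i (Finset.mem_univ i)) hn2⟩, fun i j hij h heq =>
    hcol i (Finset.mem_univ i) j (Finset.mem_univ j) hij h (congrArg Fin.val heq)⟩

end Pool.Agent.SimN.L1
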