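import Mathlib

set_option autoImplicit false

open scoped BigOperators

namespace Pool.Agent.SimN

variable {m : ℕ} {ι : Type}

/-- The system: positive sums, and the coordinatewise minima of two different rows sum to `0`. -/
def Sys (h : ι → Fin m → ℝ) : Prop :=
  (∀ i, 0 < ∑ k, h i k) ∧ ∀ i j, i ≠ j → ∑ k, min (h i k) (h j k) = 0

/-- `T` splits `(i, j)`: `h i ≥ h j` on `T` and `h i ≤ h j` off `T`. -/
def Spl (h : ι → Fin m → ℝ) (T : Finset (Fin m)) (i j : ι) : Prop :=
  (∀ k, k ∈ T → h j k ≤ h i k) ∧ ∀ k, k ∉ T → h i k ≤ h j k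

/-- The sum of `h j` over `T` plus the sum of `h i` off `T`. -/
noncomputable def Fs (h : ι → Fin m → ℝ) (T : Finset (Fin m)) (i j : ι) : ℝ :=
  ∑ k, if k ∈ T then h j k else h i k

theorem Fs_swap (h : ι → Fin m → ℝ) (T : Finset (Fin m)) (i j i' j' : ι) :
    Fs h T i j + Fs h T i' j' = Fs h T i j' + Fs h T i' j := by
  unfold Fs
  rw [← Finset.sum_add_distrib, ← Finset.sum_add_distrib]
  refine Finset.sum_congr rfl fun k _ => ?_
  by_cases hk : k ∈ T
  · simp only [hk, if_true]; ring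
  · simp only [hk, if_false]

theorem Fs_self (h : ι → Fin m → ℝ) (T : Finset (Fin m)) (i : ι) :
    Fs h T i i = ∑ k, h i k := by
  unfold Fs
  refine Finset.sum_congr rfl fun k _ => ?_
  by_cases hk : k ∈ T <;> simp [hk]

theorem Fs_nonneg {h : ι → Fin m → ℝ} (hs : Sys h) (T : Finset (Fin m)) (i j : ι) :
    0 ≤ Fs h T i j := by
  by_cases hij : i = j
  · subst hij; rw [Fs_self]; exact (hs.1 i).le
  · rw [← hs.2 i j hij]
    unfold Fs
    refine Finset.sum_le_sum fun k _ => ?_
    by_cases hk : k ∈ T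
    · simp only [hk, if_true]; exact min_le_right _ _
    · simp only [hk, if_false]; exact min_le_left _ _

theorem Fs_zero_iff {h : ι → Fin m → ℝ} (hs : Sys h) {T : Finset (Fin m)} {i j : ι} :
    Fs h T i j = 0 ↔ i ≠ j ∧ Spl h T i j := by
  constructor
  · intro h0
    have hij : i ≠ j := by
      rintro rfl
      rw [Fs_self] at h0
      exact (hs.1 i).ne' h0
    refine ⟨hij, ?_⟩
    have hle : ∀ k ∈ (Finset.univ : Finset (Fin m)), min (h i k) (h j k) ≤
        if k ∈ T then h j k else h i k := by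
      intro k _
      by_cases hk : k ∈ T
      · simp only [hk, if_true]; exact min_le_right _ _
      · simp only [hk, if_false]; exact min_le_left _ _
    have heq : ∑ k, min (h i k) (h j k) = ∑ k, if k ∈ T then h j k else h i k := by
      rw [hs.2 i j hij]; exact h0.symm
    have hall := (Finset.sum_eq_sum_iff_of_le hle).1 heq
    refine ⟨fun k hk => ?_, fun k hk => ?_⟩
    · have := hall k (Finset.mem_univ k)
      simp only [hk, if_true] at this
      exact min_eq_right_iff.1 this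
    · have := hall k (Finset.mem_univ k)
      simp only [hk, if_false] at this
      exact min_eq_left_iff.1 this
  · rintro ⟨hij, h1, h2⟩
    rw [← hs.2 i j hij]
    unfold Fs
    refine Finset.sum_congr rfl fun k _ => ?_
    by_cases hk : k ∈ T
    · simp only [hk, if_true]; exact (min_eq_right (h1 k hk)).symm
    · simp only [hk, if_false]; exact (min_eq_left (h2 k hk)).symm

/-- The sets splitting two pairs split the crossed pairs. -/
theorem bicl {h : ι → Fin m → ℝ} (hs : Sys h) {T : Finset (Fin m)} {i j i' j' : ι}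
    (h1 : i ≠ j ∧ Spl h T i j) (h2 : i' ≠ j' ∧ Spl h T i' j') :
    (i ≠ j' ∧ Spl h T i j') ∧ (i' ≠ j ∧ Spl h T i' j) := by
  rw [← Fs_zero_iff hs] at h1 h2 ⊢
  rw [← Fs_zero_iff hs]
  have h3 := Fs_swap h T i j i' j'
  have h4 := Fs_nonneg hs T i j'
  have h5 := Fs_nonneg hs T i' j
  constructor <;> linarith

theorem Spl.compl [DecidableEq (Fin m)] {h : ι → Fin m → ℝ} {T : Finset (Fin m)} {i j : ι}
    (h1 : Spl h T i j) : Spl h Tᶜ j i := by
  refine ⟨fun k hk => h1.2 k (Finset.mem_compl.1 hk), fun k hk => h1.1 k ?_⟩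
  by_contra h3
  exact hk (Finset.mem_compl.2 h3)

theorem not_empty {h : ι → Fin m → ℝ} (hs : Sys h) {i j : ι} (hij : i ≠ j)
    (h1 : Spl h ∅ i j) : False := by
  have h2 := (Fs_zero_iff hs).2 ⟨hij, h1⟩
  unfold Fs at h2
  simp only [Finset.notMem_empty, if_false] at h2
  exact (hs.1 i).ne' h2

theorem not_univ {h : ι → Fin m → ℝ} (hs : Sys h) {i j : ι} (hij : i ≠ j)
    (h1 : Spl h Finset.univ i j) : False := by
  have h2 := (Fs_zero_iff hs).2 ⟨hij, h1⟩
  unfold Fs at h2
  simp only [Finset.mem_univ, if_true] at h2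
  exact (hs.1 j).ne' h2

/-- The coordinates where `h i` is smaller than `h o`. -/
noncomputable def As (h : ι → Fin m → ℝ) (o i : ι) : Finset (Fin m) :=
  Finset.univ.filter fun k => h i k < h o k

theorem mem_As {h : ι → Fin m → ℝ} {o i : ι} {k : Fin m} : k ∈ As h o i ↔ h i k < h o k := by
  simp [As]

theorem spl_As (h : ι → Fin m → ℝ) (o i : ι) : Spl h (As h o i) o i :=
  ⟨fun _ hk => (mem_As.1 hk).le, fun _ hk => not_lt.1 fun h3 => hk (mem_As.2 h3)⟩

/-- Step (1). -/
theorem step1 [DecidableEq (Fin m)] {h : ι → Fin m → ℝ} (hs : Sys h) {o i l : ι} (hi : i ≠ o)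
    (hl : l ≠ o) : As h o l ≠ (As h o i)ᶜ := by
  intro heq
  have h1 : o ≠ i ∧ Spl h (As h o i) o i := ⟨hi.symm, spl_As h o i⟩
  have h2 : l ≠ o ∧ Spl h (As h o i) l o := by
    refine ⟨hl, ?_⟩
    have := (spl_As h o l).compl
    rwa [heq, compl_compl] at this
  exact (bicl hs h1 h2).1.1 rfl

/-- Step (2), first case. -/
theorem step2 {h : ι → Fin m → ℝ} (hs : Sys h) {o i j l : ι} (hi : i ≠ o) (hj : j ≠ o)
    (hl : l ≠ o) (hij : i ≠ j) (hA : As h o i = As h o j) (hT : Spl h (As h o l) i j) : False := by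
  set T := As h o l with hTdef
  set A := As h o i with hAdef
  obtain ⟨h1, h2⟩ := bicl hs (T := T) ⟨hl.symm, spl_As h o l⟩ ⟨hij, hT⟩
  -- h1 : T splits (o, j);  h2 : T splits (i, l)
  have hAT : A ⊆ T := by
    intro k hk
    by_contra hkT
    rw [hA, mem_As] at hk
    exact absurd (h1.2.2 k hkT) (not_le.2 hk)
  have e1 := (Fs_zero_iff hs).2 h1
  have e2 := (Fs_zero_iff hs).2 ⟨hij, hT⟩
  have e3 := (Fs_zero_iff hs).2 ⟨hl.symm, spl_As h o l⟩
  have e4 := (Fs_zero_iff hs).2 ⟨hi.symm, spl_As h o i⟩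
  -- off T, h o = h i
  have hoff : ∀ k, k ∉ T → h o k = h i k := by
    have hle : ∀ k ∈ (Finset.univ : Finset (Fin m)), (if k ∈ T then h j k else h o k) ≤
        (if k ∈ T then h j k else h i k) := by
      intro k _
      by_cases hk : k ∈ T
      · simp only [hk, if_true]; exact le_refl _
      · simp only [hk, if_false]
        exact not_lt.1 fun h3 => hk (hAT (mem_As.2 h3))
    have heq : ∑ k, (if k ∈ T then h j k else h o k) = ∑ k, (if k ∈ T then h j k else h i k) := by
      have e1' : Fs h T o j = Fs h T i j := by rw [e1, e2]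
      exact e1'
    have hall := (Finset.sum_eq_sum_iff_of_le hle).1 heq
    intro k hk
    have := hall k (Finset.mem_univ k)
    simpa only [hk, if_false] using this
  -- compare the two sums with `h o`
  have hle2 : ∀ k ∈ (Finset.univ : Finset (Fin m)), (if k ∈ T then h l k else h o k) ≤
      (if k ∈ A then h i k else h o k) := by
    intro k _
    by_cases hk : k ∈ A
    · simp only [hk, hAT hk, if_true]
      exact h2.2.1 k (hAT hk)
    · by_cases hkT : k ∈ T
      · simp only [hk, hkT, if_true, if_false]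
        exact (mem_As.1 hkT).le
      · simp only [hk, hkT, if_false]; exact le_refl _
  have heq2 : ∑ k, (if k ∈ T then h l k else h o k) = ∑ k, (if k ∈ A then h i k else h o k) := by
    have : Fs h T o l = Fs h A o i := by rw [e3, e4]
    exact this
  have hall2 := (Finset.sum_eq_sum_iff_of_le hle2).1 heq2
  have hTA : T ⊆ A := by
    intro k hk
    by_contra hkA
    have := hall2 k (Finset.mem_univ k)
    simp only [hk, hkA, if_true, if_false] at this
    exact (mem_As.1 hk).ne this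
  -- now T = A and the sum of `h i` is zero
  have hsum : ∑ k, h i k = Fs h A o i := by
    unfold Fs
    refine Finset.sum_congr rfl fun k _ => ?_
    by_cases hk : k ∈ A
    · simp only [hk, if_true]
    · simp only [hk, if_false]
      exact (hoff k fun h3 => hk (hTA h3)).symm
  have := hs.1 i
  rw [hsum, e4] at this
  exact lt_irrefl _ this

/-- Step (3). -/
theorem step3 {h : ι → Fin m → ℝ} (hs : Sys h) {o i j i' j' : ι} (hij : i ≠ j) (hij' : i' ≠ j')
    (hA : As h o i = As h o j) (hA' : As h o i' = As h o j') {T : Finset (Fin m)}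
    (h1 : Spl h T i j) (h2 : Spl h T i' j') : As h o i ⊆ As h o i' := by
  obtain ⟨h3, h4⟩ := bicl hs ⟨hij, h1⟩ ⟨hij', h2⟩
  intro k hk
  by_cases hkT : k ∈ T
  · rw [hA', mem_As]
    exact (h3.2.1 k hkT).trans_lt (mem_As.1 hk)
  · rw [mem_As]
    rw [hA, mem_As] at hk
    exact (h4.2.2 k hkT).trans_lt hk

open Classical in
/-- The sets splitting a pair of different members of `I`. -/
noncomputable def Ss (h : ι → Fin m → ℝ) (I : Finset ι) : Finset (Finset (Fin m)) :=
  Finset.univ.filter fun T => ∃ i ∈ I, ∃ j ∈ I, i ≠ j ∧ Spl h T i j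

theorem mem_Ss {h : ι → Fin m → ℝ} {I : Finset ι} {T : Finset (Fin m)} :
    T ∈ Ss h I ↔ ∃ i ∈ I, ∃ j ∈ I, i ≠ j ∧ Spl h T i j := by
  simp [Ss]

/-- The number of splitting sets is at least `2 (|I| - 1)`. -/
theorem card_Ss {h : ι → Fin m → ℝ} (hs : Sys h) (n : ℕ) :
    ∀ I : Finset ι, I.card = n → 2 * n ≤ (Ss h I).card + 2 := by
  classical
  induction n using Nat.strong_induction_on with
  | _ n ih =>
  intro I hI
  rcases Finset.eq_empty_or_nonempty I with h0 | ⟨o, ho⟩
  · subst h0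
    simp only [Finset.card_empty] at hI
    omega
  set J := I.erase o with hJ
  have hJc : J.card + 1 = n := by
    rw [hJ, Finset.card_erase_of_mem ho, hI]
    have : 0 < I.card := Finset.card_pos.2 ⟨o, ho⟩
    omega
  have hJmem : ∀ i ∈ J, i ≠ o ∧ i ∈ I := fun i hi => Finset.mem_erase.1 hi
  set 𝒜 := J.image (As h o) with h𝒜
  set C : Finset (Fin m) → Finset ι := fun B => J.filter fun i => As h o i = B with hC
  have hCmem : ∀ B, ∀ i ∈ C B, i ∈ J ∧ As h o i = B := fun B i hi => Finset.mem_filter.1 hi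
  have hCc : J.card = ∑ B ∈ 𝒜, (C B).card :=
    Finset.card_eq_sum_card_image (As h o) J
  -- the pieces
  set P : Finset (Fin m) → Finset (Finset (Fin m)) := fun B => {B, Bᶜ} ∪ Ss h (C B) with hP
  have hPsub : 𝒜.biUnion P ⊆ Ss h I := by
    intro T hT
    obtain ⟨B, hB, hTB⟩ := Finset.mem_biUnion.1 hT
    obtain ⟨i, hi, rfl⟩ := Finset.mem_image.1 hB
    have hi' := hJmem i hi
    rcases Finset.mem_union.1 hTB with h1 | h1
    · rcases Finset.mem_insert.1 h1 with h2 | h2
      · rw [h2]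
        exact mem_Ss.2 ⟨o, ho, i, hi'.2, hi'.1.symm, spl_As h o i⟩
      · rw [Finset.mem_singleton.1 h2]
        exact mem_Ss.2 ⟨i, hi'.2, o, ho, hi'.1, (spl_As h o i).compl⟩
    · obtain ⟨a, ha, b, hb, hab, hs'⟩ := mem_Ss.1 h1
      exact mem_Ss.2 ⟨a, (hJmem a (hCmem _ a ha).1).2, b, (hJmem b (hCmem _ b hb).1).2, hab, hs'⟩
  -- members of `Ss h (C B)` are neither `As` sets nor complements
  have hno : ∀ B, ∀ l ∈ J, As h o l ∉ Ss h (C B) := by
    intro B l hl hmem
    obtain ⟨a, ha, b, hb, hab, hs'⟩ := mem_Ss.1 hmem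
    obtain ⟨haJ, haB⟩ := hCmem _ a ha
    obtain ⟨hbJ, hbB⟩ := hCmem _ b hb
    exact step2 hs (hJmem a haJ).1 (hJmem b hbJ).1 (hJmem l hl).1 hab (haB.trans hbB.symm) hs'
  have hnoc : ∀ B, ∀ l ∈ J, (As h o l)ᶜ ∉ Ss h (C B) := by
    intro B l hl hmem
    obtain ⟨a, ha, b, hb, hab, hs'⟩ := mem_Ss.1 hmem
    obtain ⟨haJ, haB⟩ := hCmem _ a ha
    obtain ⟨hbJ, hbB⟩ := hCmem _ b hb
    have := hs'.compl
    rw [compl_compl] at this
    exact step2 hs (hJmem b hbJ).1 (hJmem a haJ).1 (hJmem l hl).1 hab.symm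
      (hbB.trans haB.symm) this
  have hdis : ∀ B ∈ 𝒜, ∀ B' ∈ 𝒜, B ≠ B' → Disjoint (P B) (P B') := by
    intro B hB B' hB' hne
    obtain ⟨i, hi, rfl⟩ := Finset.mem_image.1 hB
    obtain ⟨i', hi', rfl⟩ := Finset.mem_image.1 hB'
    rw [Finset.disjoint_left]
    intro T hT hT'
    rcases Finset.mem_union.1 hT with h1 | h1 <;> rcases Finset.mem_union.1 hT' with h2 | h2
    · simp only [Finset.mem_insert, Finset.mem_singleton] at h1 h2
      rcases h1 with h1 | h1 <;> rcases h2 with h2 | h2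
      · exact hne (h1.symm.trans h2)
      · exact step1 hs (hJmem i' hi').1 (hJmem i hi).1 (h1.symm.trans h2)
      · exact step1 hs (hJmem i hi).1 (hJmem i' hi').1 (h2.symm.trans h1)
      · exact hne (compl_injective (h1.symm.trans h2))
    · simp only [Finset.mem_insert, Finset.mem_singleton] at h1
      rcases h1 with h1 | h1
      · exact hno _ i hi (h1 ▸ h2)
      · exact hnoc _ i hi (h1 ▸ h2)
    · simp only [Finset.mem_insert, Finset.mem_singleton] at h2
      rcases h2 with h2 | h2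
      · exact hno _ i' hi' (h2 ▸ h1)
      · exact hnoc _ i' hi' (h2 ▸ h1)
    · obtain ⟨a, ha, b, hb, hab, hs1⟩ := mem_Ss.1 h1
      obtain ⟨a', ha', b', hb', hab', hs2⟩ := mem_Ss.1 h2
      have ea := (hCmem _ a ha).2
      have eb := (hCmem _ b hb).2
      have ea' := (hCmem _ a' ha').2
      have eb' := (hCmem _ b' hb').2
      refine hne (Finset.Subset.antisymm ?_ ?_)
      · rw [← ea, ← ea']
        exact step3 hs hab hab' (ea.trans eb.symm) (ea'.trans eb'.symm) hs1 hs2
      · rw [← ea, ← ea']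
        exact step3 hs hab' hab (ea'.trans eb'.symm) (ea.trans eb.symm) hs2 hs1
  have hcardP : ∀ B ∈ 𝒜, 2 * (C B).card ≤ (P B).card := by
    intro B hB
    obtain ⟨i, hi, rfl⟩ := Finset.mem_image.1 hB
    have hd1 : Disjoint ({As h o i, (As h o i)ᶜ} : Finset (Finset (Fin m)))
        (Ss h (C (As h o i))) := by
      rw [Finset.disjoint_left]
      intro T hT hT'
      simp only [Finset.mem_insert, Finset.mem_singleton] at hT
      rcases hT with h1 | h1
      · exact hno _ i hi (h1 ▸ hT')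
      · exact hnoc _ i hi (h1 ▸ hT')
    have hd2 : As h o i ≠ (As h o i)ᶜ := step1 hs (hJmem i hi).1 (hJmem i hi).1
    have hlt : (C (As h o i)).card < n := by
      have : (C (As h o i)).card ≤ J.card := Finset.card_filter_le _ _
      omega
    have := ih _ hlt (C (As h o i)) rfl
    rw [hP]
    simp only
    rw [Finset.card_union_of_disjoint hd1, Finset.card_pair hd2]
    omega
  have h5 : (𝒜.biUnion P).card = ∑ B ∈ 𝒜, (P B).card :=
    Finset.card_biUnion fun B hB B' hB' hne => hdis B hB B' hB' hne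
  have h6 : ∑ B ∈ 𝒜, 2 * (C B).card ≤ ∑ B ∈ 𝒜, (P B).card := Finset.sum_le_sum hcardP
  rw [← Finset.mul_sum, ← hCc, ← h5] at h6
  have h7 := Finset.card_le_card hPsub
  omega

/-- The bound `2 N ≤ 2 ^ m` for systems of `N ≥ 2` rows. -/
theorem card_sys [Fintype ι] {h : ι → Fin m → ℝ} (hs : Sys h) (hN : 2 ≤ Fintype.card ι) :
    2 * Fintype.card ι ≤ 2 ^ m := by
  classical
  have h1 := card_Ss hs (Fintype.card ι) Finset.univ Finset.card_univ
  have hsub : Ss h (Finset.univ : Finset ι) ⊆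
      ((Finset.univ : Finset (Finset (Fin m))).erase ∅).erase Finset.univ := by
    intro T hT
    obtain ⟨i, _, j, _, hij, hS⟩ := mem_Ss.1 hT
    refine Finset.mem_erase.2 ⟨?_, Finset.mem_erase.2 ⟨?_, Finset.mem_univ _⟩⟩
    · rintro rfl; exact not_univ hs hij hS
    · rintro rfl; exact not_empty hs hij hS
  obtain ⟨i, j, hij⟩ : ∃ i j : ι, i ≠ j :=
    Fintype.one_lt_card_iff.1 (by omega)
  have hm : (Finset.univ : Finset (Fin m)) ≠ ∅ := by
    intro h0
    have := hs.1 i
    rw [h0] at this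
    simp at this
  have h2 := Finset.card_le_card hsub
  rw [Finset.card_erase_of_mem (Finset.mem_erase.2 ⟨hm, Finset.mem_univ _⟩),
    Finset.card_erase_of_mem (Finset.mem_univ _), Finset.card_univ, Fintype.card_finset,
    Fintype.card_fin] at h2
  have h3 : 1 ≤ (Ss h (Finset.univ : Finset ι)).card := by omega
  omega

end Pool.Agent.SimN
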